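import Pool.Agent.Lib.MP_afdd4d_co.K9.TwBP

/-!
# 4-graphs with few 5-sets with three or five edges: assembly
-/

namespace Pool.Agent.Lib.MP_afdd4d_co.TB

open Finset

/-- The number of 5-element subsets of `Fin n` that contain exactly `c` members of `H`. -/
def T {n : ℕ} (H : Finset (Finset (Fin n))) (c : ℕ) : ℕ :=
  ((univ.powersetCard 5).filter fun S => ((S.powersetCard 4).filter fun e => e ∈ H).card = c).card

/-- The theorem from its three inputs. -/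
theorem final_of (hA : ∃ x0 : ℝ, 0 < x0 ∧ K9.Star.Tw.TgtP x0) (hT : K9.Star.Tw.T1Soft)
    (hP : ∀ ε : ℝ, 0 < ε → ∃ N : ℕ, ∀ n : ℕ, N ≤ n →
      (∀ H : Finset (Finset (Fin n)), (∀ e ∈ H, e.card = 4) →
        (H.card : ℝ) / ((n.choose 4 : ℕ) : ℝ) ≤ 11 / 16 +
          ((T H 3 : ℝ) + 5 * (T H 5 : ℝ) - 3 * (T H 1 : ℝ)) / (5 * ((n.choose 5 : ℕ) : ℝ)) + ε)) :
    ∃ η : ℝ, 0 < η ∧ ∀ ε : ℝ, 0 < ε → ∃ N : ℕ, ∀ n : ℕ, N ≤ n →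
      ∀ H : Finset (Finset (Fin n)), (∀ e ∈ H, e.card = 4) →
      ((T H 3 : ℝ) + (T H 5 : ℝ)) ≤ η * ((n.choose 5 : ℕ) : ℝ) →
      (H.card : ℝ) ≤ (11 / 16 + ε) * ((n.choose 4 : ℕ) : ℝ) + 50 / n * (T H 5 : ℝ) := by
  obtain ⟨x0, hx0, h⟩ := hA
  exact K9.Star.Tw.tgtB_plus hx0 h hT hP

end Pool.Agent.Lib.MP_afdd4d_co.TB
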