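import Pool.Agent.Lib.MP_afdd4d_co.TB.Asm
import Pool.Agent.Lib.MP_afdd4d_co.K9.TAFin
import Pool.Agent.Lib.MP_afdd4d_co.T1S.Final
import Pool.Agent.Lib.MP_afdd4d_co.K8.EvFin

/-!
# 4-graphs with few 5-sets with three or five edges
-/

namespace Pool.Agent.Lib.MP_afdd4d_co.TB

open Finset

theorem final : ∃ η : ℝ, 0 < η ∧ ∀ ε : ℝ, 0 < ε → ∃ N : ℕ, ∀ n : ℕ, N ≤ n →
      ∀ H : Finset (Finset (Fin n)), (∀ e ∈ H, e.card = 4) →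
      ((T H 3 : ℝ) + (T H 5 : ℝ)) ≤ η * ((n.choose 5 : ℕ) : ℝ) →
      (H.card : ℝ) ≤ (11 / 16 + ε) * ((n.choose 4 : ℕ) : ℝ) + 50 / n * (T H 5 : ℝ) :=
  final_of K9.Star.VS.tgtP (K9.Star.Tw.t1Soft_of_Gir T1S.t1s)
    (fun e h => (K8.profile e h).imp fun _ hN n hn => (hN n hn).1)

end Pool.Agent.Lib.MP_afdd4d_co.TB
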